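import Pool.Agent.SqF9L.ConvI
import Pool.Agent.SqF9L.One

set_option autoImplicit false

/-!
# One-sided bounds: the zeros of `ζ` to the right of `b`, and pointwise bounds
-/

open Complex Filter Topology Set MeasureTheory Pool.Agent.Hadamard Pool.Agent.ANT
  Pool.Agent.SqFull

namespace Pool.Agent.SqF9M

/-- Every zero to the right of `6 κ` is twice or three times a zero. -/
theorem halves_of_in {κ : ℝ} (hM : SqF9L.IN κ) (h10 : 0 ≤ κ) (hκ : κ < 1) : ∀ s : ℂ,
    6 * κ < s.re → s.re < 1 → riemannZeta s = 0 →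
    riemannZeta (s / 2) = 0 ∨ riemannZeta (s / 3) = 0 := by
  intro s h1 h2 h3
  have hs : s ∈ ntz := ⟨h3, by linarith, h2⟩
  rcases SqF9L.zero_halvesI hM h10 hκ hs h1 with h | h
  · exact Or.inl h.1
  · exact Or.inr h.1

/-- The case of the exponent `1/10`. -/
theorem zeros_of_in (hM : SqF9L.IN (1 / 10)) :
    ∀ s : ℂ, 3 / 5 < s.re → s.re < 1 → riemannZeta s = 0 →
      4 / 5 ≤ s.re ∧ riemannZeta (s / 2) = 0 := by
  intro s h1 h2 h3
  have hM' : SqF9L.IN (3 / 5 / 6) := by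
    have e : (3 / 5 / 6 : ℝ) = 1 / 10 := by norm_num
    rw [e]
    exact hM
  obtain ⟨h4, h5⟩ := SqF9L.zeros_of_in_strip (by norm_num) le_rfl hM' s h1 h2 h3
  exact ⟨by linarith, h5⟩

lemma integrable_Delta_Ioc {b : ℝ} : IntegrableOn Delta (Ioc 1 b) := by
  obtain ⟨B, hB, h⟩ := Delta_le
  refine Measure.integrableOn_of_bounded (M := B * |b|) (by simp) ?_ ?_
  · exact measurable_Delta.aestronglyMeasurable
  · refine (ae_restrict_iff' measurableSet_Ioc).mpr (Eventually.of_forall fun x hx => ?_)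
    have hx1 : 1 ≤ x := hx.1.le
    have h1 := h x hx1
    have h3 : x ^ (11 / 20 : ℝ) ≤ |b| := by
      calc x ^ (11 / 20 : ℝ) ≤ x ^ (1 : ℝ) :=
            Real.rpow_le_rpow_of_exponent_le hx1 (by norm_num)
        _ = x := Real.rpow_one x
        _ ≤ |b| := hx.2.trans (le_abs_self b)
    rw [Real.norm_eq_abs]
    exact h1.trans (by gcongr)

/-- An upper bound for `Δ` gives an upper bound for the first mean. -/
theorem above_mean {κ : ℝ} (h0 : 0 ≤ κ) (h : ∀ ε : ℝ, 0 < ε → ∃ C : ℝ, ∀ x : ℝ, 1 ≤ x →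
    Delta x ≤ C * x ^ (κ + ε)) :
    ∀ ε : ℝ, 0 < ε → ∃ C : ℝ, ∀ X : ℝ, 1 ≤ X →
      ∫ x in (1:ℝ)..X, Delta x ≤ C * X ^ (1 + κ + ε) := by
  intro ε hε
  obtain ⟨C, hC⟩ := h ε hε
  refine ⟨|C|, fun X hX => ?_⟩
  have hX0 : 0 < X := by linarith
  have hi : IntervalIntegrable Delta volume 1 X := by
    rw [intervalIntegrable_iff_integrableOn_Ioc_of_le hX]
    exact integrable_Delta_Ioc
  have h1 : ∫ x in (1:ℝ)..X, Delta x ≤ ∫ x in (1:ℝ)..X, |C| * X ^ (κ + ε) := by
    refine intervalIntegral.integral_mono_on hX hi intervalIntegrable_const fun x hx => ?_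
    have hx0 : 0 < x := by linarith [hx.1]
    refine (hC x hx.1).trans ?_
    refine mul_le_mul (le_abs_self C) ?_ (by positivity) (abs_nonneg C)
    exact Real.rpow_le_rpow hx0.le hx.2 (by linarith)
  refine h1.trans ?_
  rw [intervalIntegral.integral_const, smul_eq_mul]
  calc (X - 1) * (|C| * X ^ (κ + ε)) ≤ X * (|C| * X ^ (κ + ε)) := by
        gcongr
        linarith
    _ = |C| * X ^ (1 + κ + ε) := by
        have e : 1 + κ + ε = κ + ε + 1 := by ring
        rw [e, Real.rpow_add_one hX0.ne']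
        ring

/-- A lower bound for `Δ` gives a lower bound for the first mean. -/
theorem below_mean {κ : ℝ} (h0 : 0 ≤ κ) (h : ∀ ε : ℝ, 0 < ε → ∃ C : ℝ, ∀ x : ℝ, 1 ≤ x →
    -(C * x ^ (κ + ε)) ≤ Delta x) :
    ∀ ε : ℝ, 0 < ε → ∃ C : ℝ, ∀ X : ℝ, 1 ≤ X →
      -(C * X ^ (1 + κ + ε)) ≤ ∫ x in (1:ℝ)..X, Delta x := by
  intro ε hε
  obtain ⟨C, hC⟩ := h ε hε
  refine ⟨|C|, fun X hX => ?_⟩
  have hX0 : 0 < X := by linarith
  have hi : IntervalIntegrable Delta volume 1 X := by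
    rw [intervalIntegrable_iff_integrableOn_Ioc_of_le hX]
    exact integrable_Delta_Ioc
  have h1 : ∫ x in (1:ℝ)..X, -(|C| * X ^ (κ + ε)) ≤ ∫ x in (1:ℝ)..X, Delta x := by
    refine intervalIntegral.integral_mono_on hX intervalIntegrable_const hi fun x hx => ?_
    have hx0 : 0 < x := by linarith [hx.1]
    refine le_trans (neg_le_neg ?_) (hC x hx.1)
    refine mul_le_mul (le_abs_self C) ?_ (by positivity) (abs_nonneg C)
    exact Real.rpow_le_rpow hx0.le hx.2 (by linarith)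
  refine le_trans ?_ h1
  rw [intervalIntegral.integral_const, smul_eq_mul]
  have h2 : (X - 1) * (|C| * X ^ (κ + ε)) ≤ |C| * X ^ (1 + κ + ε) := by
    calc (X - 1) * (|C| * X ^ (κ + ε)) ≤ X * (|C| * X ^ (κ + ε)) := by
          gcongr
          linarith
      _ = |C| * X ^ (1 + κ + ε) := by
          have e : 1 + κ + ε = κ + ε + 1 := by ring
          rw [e, Real.rpow_add_one hX0.ne']
          ring
  linarith

end Pool.Agent.SqF9M
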